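import Pool.Agent.T9h49.SC.Poly

/-!
Step-bounded evaluation of a fixed code of a partial recursive function is computable in time
polynomial in the numbers (in unary).
-/

set_option autoImplicit false

namespace Pool.Agent.T9h49.SC

open Computability
open Pool.Agent.H583R2 hiding Code
open Nat.Partrec (Code)
open Nat.Partrec.Code (evaln)

section
variable {α : Type} [TEnc α]

theorem sqrt_iter (n : ℕ) : ∀ j, (fun s => if decide ((s + 1) * (s + 1) ≤ n) then s + 1 else s)^[j] 0
    = min j (Nat.sqrt n) := by
  intro j
  induction j with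
  | zero => simp
  | succ j ih =>
    rw [Function.iterate_succ_apply', ih]
    rcases lt_or_ge j (Nat.sqrt n) with h | h
    · rw [min_eq_left h.le, min_eq_left (by omega : j + 1 ≤ Nat.sqrt n), if_pos]
      rw [decide_eq_true_eq, ← Nat.le_sqrt]
      exact h
    · rw [min_eq_right h, min_eq_right (by omega), if_neg]
      rw [decide_eq_true_eq, ← Nat.le_sqrt]
      omega

theorem pf_sqrt {n : α → ℕ} (hn : PF n) : PF (fun a => Nat.sqrt (n a)) := by
  have h := PF.iterateAdd (n := n) (s := fun _ => 0)
    (f := fun a s => if decide ((s + 1) * (s + 1) ≤ n a) then s + 1 else s) hn (PF.const 0)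
    (PF.ite (PF.le (PF.mul (PF.succ PF.snd) (PF.succ PF.snd)) (hn.comp PF.fst)) (PF.succ PF.snd)
      PF.snd) (inc := fun _ => 2) (bnd := fun _ => 0) (PB.const 2) (PB.const 0) (by
      intro a st
      refine le_trans ?_ (le_max_left _ _)
      split
      · rw [sz_succ]; omega
      · omega)
  refine h.congr fun a => ?_
  rw [sqrt_iter]
  exact min_eq_right (Nat.sqrt_le_self _)

theorem pf_unpair {n : α → ℕ} (hn : PF n) : PF (fun a => Nat.unpair (n a)) := by
  have hs := pf_sqrt hn
  have hd : PF (fun a => n a - Nat.sqrt (n a) * Nat.sqrt (n a)) := PF.sub hn (PF.mul hs hs)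
  have h := PF.ite (PF.lt hd hs) (PF.pair hd hs) (PF.pair hs (PF.sub hd hs))
  refine h.congr fun a => ?_
  unfold Nat.unpair
  by_cases hc : n a - Nat.sqrt (n a) * Nat.sqrt (n a) < Nat.sqrt (n a)
  · simp [hc]
  · simp [hc]

theorem pf_pair {m n : α → ℕ} (hm : PF m) (hn : PF n) : PF (fun a => Nat.pair (m a) (n a)) := by
  have h := PF.ite (PF.lt hm hn) (PF.add (PF.mul hn hn) hm)
    (PF.add (PF.add (PF.mul hm hm) hm) hn)
  refine h.congr fun a => ?_
  unfold Nat.pair
  by_cases hc : m a < n a
  · simp [hc]
  · simp [hc]

variable {β γ : Type} [TEnc β] [TEnc γ]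

theorem pf_bind {o : α → Option β} {f : α → β → Option γ} (ho : PF o)
    (hf : PF (fun p : α × β => f p.1 p.2)) : PF (fun a => (o a).bind (f a)) := by
  refine (PF.optCase (l := o) (g := fun _ => (none : Option γ)) (h := f) ho (PF.const none)
    hf).congr fun a => ?_
  rcases o a with _ | x <;> rfl

/-- the guard of `evaln` -/
theorem guard_bind (p : Prop) [Decidable p] (o : Option ℕ) :
    ((guard p : Option Unit) >>= fun _ => o) = if decide p then o else none := by
  by_cases h : p <;> simp [h, guard]

end

/-! ### primitive recursion -/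

/-- one step of the evaluation of a primitive recursion -/
def precStep (G : ℕ → ℕ → Option ℕ) (k a m : ℕ) (q : ℕ × Option ℕ) : ℕ × Option ℕ :=
  (q.1 + 1, if decide (Nat.pair a (q.1 + 1) ≤ k - m + q.1) then
    q.2.bind (fun i => G (k - m + q.1 + 1) (Nat.pair a (Nat.pair q.1 i))) else none)

theorem evaln_prec_zero (cf cg : Code) (k a : ℕ) :
    evaln (k + 1) (Code.prec cf cg) (Nat.pair a 0) =
      if decide (Nat.pair a 0 ≤ k) then evaln (k + 1) cf a else none := by
  rw [evaln]
  simp only [guard_bind, Nat.unpaired, Nat.unpair_pair]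
  rfl

theorem evaln_prec_succ (cf cg : Code) (k a y : ℕ) :
    evaln (k + 1) (Code.prec cf cg) (Nat.pair a (y + 1)) =
      if decide (Nat.pair a (y + 1) ≤ k) then
        (evaln k (Code.prec cf cg) (Nat.pair a y)).bind
          (fun i => evaln (k + 1) cg (Nat.pair a (Nat.pair y i))) else none := by
  rw [evaln]
  simp only [guard_bind, Nat.unpaired, Nat.unpair_pair]
  rfl

theorem prec_iter (cf cg : Code) (k a m : ℕ) (hm : m ≤ k) : ∀ j,
    (precStep (fun k n => evaln k cg n) k a m)^[j]
      (0, evaln (k - m) (Code.prec cf cg) (Nat.pair a 0)) =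
    (j, evaln (k - m + j) (Code.prec cf cg) (Nat.pair a j)) := by
  intro j
  induction j with
  | zero => rfl
  | succ j ih =>
    rw [Function.iterate_succ_apply', ih]
    unfold precStep
    dsimp only
    have e : k - m + (j + 1) = (k - m + j) + 1 := by omega
    rw [e, evaln_prec_succ]

theorem evaln_none_of_lt {k n : ℕ} {c : Code} (h : k ≤ n) : evaln k c n = none := by
  by_contra hne
  obtain ⟨x, hx⟩ := Option.ne_none_iff_exists'.1 hne
  have := Nat.Partrec.Code.evaln_bound (x := x) (by rw [hx]; rfl)
  omega

/-! ### unbounded search -/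

/-- one step of the evaluation of a search: the state is the result (if the search has ended) or
the present values of `k` and `m` -/
def findIn (o : Option ℕ) (s : ℕ × ℕ) : Option (Option ℕ) × ℕ × ℕ :=
  match o with
  | none => (some none, s)
  | some x => if decide (x = 0) then (some (some s.2), s) else (none, s.1 - 1, s.2 + 1)

/-- see above -/
def findStep (F : ℕ → ℕ → Option ℕ) (a : ℕ) (q : Option (Option ℕ) × ℕ × ℕ) :
    Option (Option ℕ) × ℕ × ℕ :=
  match q.1 with
  | some _ => q
  | none =>
    if decide (q.2.1 = 0) then (some none, q.2) else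
      if decide (Nat.pair a q.2.2 ≤ q.2.1 - 1) then findIn (F q.2.1 (Nat.pair a q.2.2)) q.2
      else (some none, q.2)

theorem findStep_some (F : ℕ → ℕ → Option ℕ) (a : ℕ) (r : Option ℕ) (s : ℕ × ℕ) (j : ℕ) :
    (findStep F a)^[j] (some r, s) = (some r, s) := by
  induction j with
  | zero => rfl
  | succ j ih => rw [Function.iterate_succ_apply', ih]; rfl

theorem evaln_rfind (cf : Code) (k a m : ℕ) :
    evaln (k + 1) (Code.rfind' cf) (Nat.pair a m) =
      if decide (Nat.pair a m ≤ k) then
        (evaln (k + 1) cf (Nat.pair a m)).bind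
          (fun x => if decide (x = 0) then some m else
            evaln k (Code.rfind' cf) (Nat.pair a (m + 1))) else none := by
  rw [evaln]
  simp only [guard_bind, Nat.unpaired, Nat.unpair_pair]
  congr 1
  simp only [Option.bind_eq_bind, decide_eq_true_eq]
  rfl

theorem findStep_run (F : ℕ → ℕ → Option ℕ) (a k m : ℕ) : findStep F a (none, k + 1, m) =
    if decide (Nat.pair a m ≤ k) then findIn (F (k + 1) (Nat.pair a m)) (k + 1, m)
    else (some none, k + 1, m) := by
  simp [findStep]

theorem find_iter (cf : Code) (a : ℕ) : ∀ k m, (((findStep (fun k n => evaln k cf n) a)^[k + 1]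
    (none, k, m)).1).getD none = evaln k (Code.rfind' cf) (Nat.pair a m) := by
  intro k
  induction k with
  | zero =>
    intro m
    rw [Function.iterate_one]
    simp [findStep, evaln]
  | succ k ih =>
    intro m
    rw [Function.iterate_succ_apply, evaln_rfind, findStep_run]
    by_cases h1 : Nat.pair a m ≤ k
    · rw [if_pos (by simpa using h1), if_pos (by simpa using h1)]
      rcases hF : evaln (k + 1) cf (Nat.pair a m) with _ | x
      · rw [findIn, findStep_some]
        rfl
      · by_cases h2 : x = 0
        · subst h2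
          rw [findIn, if_pos (by simp), findStep_some]
          rfl
        · rw [findIn, if_neg (by simpa using h2), Option.bind_some, if_neg (by simpa using h2)]
          exact ih (m + 1)
    · rw [if_neg (by simpa using h1), if_neg (by simpa using h1), findStep_some]
      rfl

/-- evaluation with bounded resources is polynomial time for each fixed code -/
theorem pf_evaln (c : Code) : PF (fun p : ℕ × ℕ => evaln p.1 c p.2) := by
  induction c with
  | zero =>
    refine (PF.natCase (l := fun p : ℕ × ℕ => p.1) (g := fun _ => (none : Option ℕ))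
      (h := fun p k => if decide (p.2 ≤ k) then some 0 else none) PF.fst (PF.const none)
      (PF.ite (PF.le (PF.snd' PF.fst) PF.snd) (PF.const _) (PF.const _))).congr fun p => ?_
    rcases hk : p.1 with _ | k
    · simp [evaln]
    · simp only [evaln, guard_bind]; rfl
  | succ =>
    refine (PF.natCase (l := fun p : ℕ × ℕ => p.1) (g := fun _ => (none : Option ℕ))
      (h := fun p k => if decide (p.2 ≤ k) then some (p.2 + 1) else none) PF.fst (PF.const none)
      (PF.ite (PF.le (PF.snd' PF.fst) PF.snd) (PF.mkSome (PF.succ (PF.snd' PF.fst)))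
        (PF.const _))).congr fun p => ?_
    rcases hk : p.1 with _ | k
    · simp [evaln]
    · simp only [evaln, guard_bind]; rfl
  | left =>
    refine (PF.natCase (l := fun p : ℕ × ℕ => p.1) (g := fun _ => (none : Option ℕ))
      (h := fun p k => if decide (p.2 ≤ k) then some (p.2.unpair.1) else none) PF.fst
      (PF.const none)
      (PF.ite (PF.le (PF.snd' PF.fst) PF.snd) (PF.mkSome (PF.fst' (pf_unpair (PF.snd' PF.fst))))
        (PF.const _))).congr fun p => ?_
    rcases hk : p.1 with _ | k
    · simp [evaln]
    · simp only [evaln, guard_bind]; rfl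
  | right =>
    refine (PF.natCase (l := fun p : ℕ × ℕ => p.1) (g := fun _ => (none : Option ℕ))
      (h := fun p k => if decide (p.2 ≤ k) then some (p.2.unpair.2) else none) PF.fst
      (PF.const none)
      (PF.ite (PF.le (PF.snd' PF.fst) PF.snd) (PF.mkSome (PF.snd' (pf_unpair (PF.snd' PF.fst))))
        (PF.const _))).congr fun p => ?_
    rcases hk : p.1 with _ | k
    · simp [evaln]
    · simp only [evaln, guard_bind]; rfl
  | pair cf cg hf hg =>
    have h1 : PF (fun p : (ℕ × ℕ) × ℕ => evaln p.1.1 cf p.1.2) := hf.comp PF.fst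
    have h2 : PF (fun p : ((ℕ × ℕ) × ℕ) × ℕ => evaln p.1.1.1 cg p.1.1.2) :=
      hg.comp (PF.fst' PF.fst)
    refine (PF.natCase (l := fun p : ℕ × ℕ => p.1) (g := fun _ => (none : Option ℕ))
      (h := fun p k => if decide (p.2 ≤ k) then
        (evaln p.1 cf p.2).bind (fun x => (evaln p.1 cg p.2).bind
          (fun y => some (Nat.pair x y))) else none) PF.fst (PF.const none)
      (PF.ite (PF.le (PF.snd' PF.fst) PF.snd) (pf_bind h1 (pf_bind h2
        (PF.mkSome (pf_pair (PF.snd' PF.fst) PF.snd)))) (PF.const _))).congr fun p => ?_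
    rcases hk : p.1 with _ | k
    · simp [evaln]
    · simp only [evaln, guard_bind]
      split
      · rcases evaln (k + 1) cf p.2 with _ | x
        · rfl
        · rcases evaln (k + 1) cg p.2 with _ | y <;> rfl
      · rfl
  | comp cf cg hf hg =>
    have h1 : PF (fun p : (ℕ × ℕ) × ℕ => evaln p.1.1 cg p.1.2) := hg.comp PF.fst
    have h2 : PF (fun p : ((ℕ × ℕ) × ℕ) × ℕ => evaln p.1.1.1 cf p.2) :=
      hf.comp (PF.pair (PF.fst' (PF.fst' PF.fst)) PF.snd)
    refine (PF.natCase (l := fun p : ℕ × ℕ => p.1) (g := fun _ => (none : Option ℕ))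
      (h := fun p k => if decide (p.2 ≤ k) then
        (evaln p.1 cg p.2).bind (fun x => evaln p.1 cf x) else none) PF.fst (PF.const none)
      (PF.ite (PF.le (PF.snd' PF.fst) PF.snd) (pf_bind h1 h2) (PF.const _))).congr fun p => ?_
    rcases hk : p.1 with _ | k
    · simp [evaln]
    · simp only [evaln, guard_bind]; rfl
  | prec cf cg hf hg =>
    -- parameters: `k`, `a`, `m`
    have hk : PF (fun p : ℕ × ℕ => p.1) := PF.fst
    have hu : PF (fun p : ℕ × ℕ => Nat.unpair p.2) := pf_unpair PF.snd
    have ha : PF (fun p : ℕ × ℕ => (Nat.unpair p.2).1) := PF.fst' hu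
    have hm : PF (fun p : ℕ × ℕ => (Nat.unpair p.2).2) := PF.snd' hu
    -- the start
    have hstart : PF (fun p : ℕ × ℕ => evaln (p.1 - (Nat.unpair p.2).2) (Code.prec cf cg)
        (Nat.pair (Nat.unpair p.2).1 0)) := by
      refine (PF.natCase (l := fun p : ℕ × ℕ => p.1 - (Nat.unpair p.2).2)
        (g := fun _ => (none : Option ℕ))
        (h := fun p k => if decide (Nat.pair (Nat.unpair p.2).1 0 ≤ k) then
          evaln (k + 1) cf (Nat.unpair p.2).1 else none) (PF.sub hk hm) (PF.const none)
        (PF.ite (PF.le (pf_pair (ha.comp PF.fst) (PF.const 0)) PF.snd)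
          (hf.comp (PF.pair (PF.succ PF.snd) (ha.comp PF.fst))) (PF.const _))).congr fun p => ?_
      rcases hk : p.1 - (Nat.unpair p.2).2 with _ | k
      · simp [evaln]
      · exact (evaln_prec_zero cf cg k _).symm
    -- the step
    have hq1 : PF (fun p : (ℕ × ℕ) × (ℕ × Option ℕ) => p.2.1) := PF.fst' PF.snd
    have hkm : PF (fun p : (ℕ × ℕ) × (ℕ × Option ℕ) => p.1.1 - (Nat.unpair p.1.2).2 + p.2.1) :=
      PF.add ((PF.sub hk hm).comp PF.fst) hq1
    have hstep : PF (fun p : (ℕ × ℕ) × (ℕ × Option ℕ) =>
        precStep (fun k n => evaln k cg n) p.1.1 (Nat.unpair p.1.2).1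
          (Nat.unpair p.1.2).2 p.2) := by
      unfold precStep
      refine PF.pair (PF.succ hq1) (PF.ite (PF.le (pf_pair (ha.comp PF.fst) (PF.succ hq1)) hkm)
        (pf_bind (f := fun (p : (ℕ × ℕ) × (ℕ × Option ℕ)) i =>
          evaln (p.1.1 - (Nat.unpair p.1.2).2 + p.2.1 + 1) cg
            (Nat.pair (Nat.unpair p.1.2).1 (Nat.pair p.2.1 i))) (PF.snd' PF.snd) ?_)
        (PF.const none))
      exact hg.comp (PF.pair (PF.succ (hkm.comp PF.fst))
        (pf_pair (ha.comp (PF.fst' PF.fst)) (pf_pair (hq1.comp PF.fst) PF.snd)))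
    -- sizes of the values
    have hval : PB (fun p : ℕ × ℕ => sz (evaln p.1 cf p.2) + sz (evaln p.1 cg p.2)) :=
      hf.size.add hg.size
    obtain ⟨K, hK⟩ := hval
    have hbound : ∀ k n, sz (evaln k (Code.prec cf cg) n) ≤ (8 * k + 8) ^ K + 1 := by
      intro k n
      rcases k with _ | k
      · simp only [evaln]
        rw [sz_none]
        exact Nat.le_add_left _ _
      · have hn : n = Nat.pair (Nat.unpair n).1 (Nat.unpair n).2 := (Nat.pair_unpair n).symm
        rw [hn]
        set a := (Nat.unpair n).1
        have hgen : ∀ (c' : Code), c' = cf ∨ c' = cg → ∀ n', sz (evaln (k + 1) c' n') ≤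
            (8 * (k + 1) + 8) ^ K + 1 := by
          intro c' hc' n'
          rcases lt_or_ge n' (k + 1) with h | h
          · have h1 := hK (k + 1, n')
            dsimp only at h1
            rw [sz_pair, sz_nat, sz_nat] at h1
            have h2 : (1 + (2 * (k + 1) + 1) + (2 * n' + 1) + 2) ^ K ≤ (8 * (k + 1) + 8) ^ K :=
              Nat.pow_le_pow_left (by omega) _
            rcases hc' with rfl | rfl <;> omega
          · rw [evaln_none_of_lt h, sz_none]
            omega
        rcases (Nat.unpair n).2 with _ | y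
        · rw [evaln_prec_zero]
          split
          · exact hgen cf (Or.inl rfl) _
          · rw [sz_none]; omega
        · rw [evaln_prec_succ]
          split
          · rcases evaln k (Code.prec cf cg) (Nat.pair a y) with _ | i
            · rw [Option.bind_none, sz_none]; omega
            · exact hgen cg (Or.inr rfl) _
          · rw [sz_none]; omega
    have hiter := PF.iterate (n := fun p : ℕ × ℕ => min (Nat.unpair p.2).2 p.1)
      (s := fun p => (0, evaln (p.1 - (Nat.unpair p.2).2) (Code.prec cf cg)
        (Nat.pair (Nat.unpair p.2).1 0)))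
      (f := fun p q => precStep (fun k n => evaln k cg n) p.1
        (Nat.unpair p.2).1 (Nat.unpair p.2).2 q) (PF.min hm hk) (PF.pair (PF.const 0) hstart)
      hstep (b := fun p => 2 * sz p + 2 + ((16 * sz p + 8) ^ K + 1) + ((16 * sz p + 8) ^ K + 1))
      (((((PB.const 2).mul PB.szId).add (PB.const 2)).add
        (((((PB.const 16).mul PB.szId).add (PB.const 8)).pow K).add (PB.const 1))).add
        (((((PB.const 16).mul PB.szId).add (PB.const 8)).pow K).add (PB.const 1))) (by
        intro p j hj
        have hsz : 2 * p.1 + 1 ≤ sz p := by rw [sz_prod, sz_nat]; omega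
        rcases le_or_gt (Nat.unpair p.2).2 p.1 with hm' | hm'
        · rw [prec_iter cf cg p.1 _ _ hm' j, sz_pair, sz_nat]
          have h1 := hbound (p.1 - (Nat.unpair p.2).2 + j) (Nat.pair (Nat.unpair p.2).1 j)
          have h2 : (8 * (p.1 - (Nat.unpair p.2).2 + j) + 8) ^ K ≤ (16 * sz p + 8) ^ K :=
            Nat.pow_le_pow_left (by omega) _
          omega
        · -- then all values are `none`
          have h0 : p.1 - (Nat.unpair p.2).2 = 0 := by omega
          have hall : ∀ j, ((precStep (fun k n => evaln k cg n) p.1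
              (Nat.unpair p.2).1 (Nat.unpair p.2).2)^[j]
              (0, evaln (p.1 - (Nat.unpair p.2).2) (Code.prec cf cg)
                (Nat.pair (Nat.unpair p.2).1 0))) = (j, none) := by
            intro j
            induction j with
            | zero => rw [h0]; simp [evaln]
            | succ j ih =>
              rw [Function.iterate_succ_apply', ih]
              unfold precStep
              dsimp only
              simp
          rw [hall, sz_pair, sz_none, sz_nat]
          omega)
    refine (PF.ite (PF.le hm hk) (PF.snd' hiter) (PF.const none)).congr fun p => ?_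
    rcases le_or_gt (Nat.unpair p.2).2 p.1 with hm' | hm'
    · rw [if_pos (by simpa using hm'), min_eq_left hm', prec_iter cf cg p.1 _ _ hm']
      dsimp only
      rw [Nat.sub_add_cancel hm', Nat.pair_unpair]
    · rw [if_neg (by simpa using hm')]
      rw [evaln_none_of_lt]
      have := Nat.unpair_right_le p.2
      omega
  | rfind' cf hf =>
    have hk : PF (fun p : ℕ × ℕ => p.1) := PF.fst
    have hu : PF (fun p : ℕ × ℕ => Nat.unpair p.2) := pf_unpair PF.snd
    have ha : PF (fun p : ℕ × ℕ => (Nat.unpair p.2).1) := PF.fst' hu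
    have hm : PF (fun p : ℕ × ℕ => (Nat.unpair p.2).2) := PF.snd' hu
    have hstep : PF (fun p : (ℕ × ℕ) × (Option (Option ℕ) × ℕ × ℕ) =>
        findStep (fun k n => evaln k cf n) (Nat.unpair p.1.2).1 p.2) := by
      have hq : PF (fun p : (ℕ × ℕ) × (Option (Option ℕ) × ℕ × ℕ) => p.2) := PF.snd
      have hq2 : PF (fun p : (ℕ × ℕ) × (Option (Option ℕ) × ℕ × ℕ) => p.2.2) := PF.snd' hq
      have ha' : PF (fun p : (ℕ × ℕ) × (Option (Option ℕ) × ℕ × ℕ) => (Nat.unpair p.1.2).1) :=
        ha.comp PF.fst
      have hpr := pf_pair ha' (PF.snd' hq2)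
      have hfin : PF (fun p : (ℕ × ℕ) × (Option (Option ℕ) × ℕ × ℕ) =>
          ((some none, p.2.2) : Option (Option ℕ) × ℕ × ℕ)) := PF.pair (PF.const _) hq2
      have hin : PF (fun p : (ℕ × ℕ) × (Option (Option ℕ) × ℕ × ℕ) =>
          findIn (evaln p.2.2.1 cf (Nat.pair (Nat.unpair p.1.2).1 p.2.2.2)) p.2.2) := by
        refine (PF.optCase (l := fun p : (ℕ × ℕ) × (Option (Option ℕ) × ℕ × ℕ) =>
            evaln p.2.2.1 cf (Nat.pair (Nat.unpair p.1.2).1 p.2.2.2))
          (g := fun p : (ℕ × ℕ) × (Option (Option ℕ) × ℕ × ℕ) =>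
            ((some none, p.2.2) : Option (Option ℕ) × ℕ × ℕ))
          (h := fun (p : (ℕ × ℕ) × (Option (Option ℕ) × ℕ × ℕ)) x =>
            if decide (x = 0) then (some (some p.2.2.2), p.2.2) else
            (none, p.2.2.1 - 1, p.2.2.2 + 1)) (hf.comp (PF.pair (PF.fst' hq2) hpr)) hfin
          (PF.ite (PF.isZero PF.snd)
            (PF.pair (PF.mkSome (PF.mkSome ((PF.snd' hq2).comp PF.fst))) (hq2.comp PF.fst))
            (PF.pair (PF.const none) (PF.pair (PF.pred ((PF.fst' hq2).comp PF.fst))
              (PF.succ ((PF.snd' hq2).comp PF.fst)))))).congr fun p => ?_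
        rcases evaln p.2.2.1 cf (Nat.pair (Nat.unpair p.1.2).1 p.2.2.2) with _ | x <;> rfl
      refine (PF.optCase (l := fun p : (ℕ × ℕ) × (Option (Option ℕ) × ℕ × ℕ) => p.2.1)
        (h := fun p _ => p.2) (PF.fst' hq)
        (PF.ite (PF.isZero (PF.fst' hq2)) hfin
          (PF.ite (PF.le hpr (PF.pred (PF.fst' hq2))) hin hfin)) PF.fst.snd').congr fun p => ?_
      unfold findStep
      rcases p.2.1 with _ | r
      · rfl
      · rfl
    have hiter := PF.iterate (n := fun p : ℕ × ℕ => p.1 + 1)
      (s := fun p => ((none, p.1, (Nat.unpair p.2).2) : Option (Option ℕ) × ℕ × ℕ))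
      (f := fun p => findStep (fun k n => evaln k cf n) (Nat.unpair p.2).1) (PF.succ hk)
      (PF.pair (PF.const none) (PF.pair hk hm)) hstep
      (b := fun p => 12 * sz p + 20) (((PB.const 12).mul PB.szId).add (PB.const 20)) (by
        intro p j hj
        have hinv : ∀ j, (((findStep (fun k n => evaln k cf n) (Nat.unpair p.2).1)^[j]
            (none, p.1, (Nat.unpair p.2).2)).2.1 ≤ p.1) ∧
            (((findStep (fun k n => evaln k cf n) (Nat.unpair p.2).1)^[j]
            (none, p.1, (Nat.unpair p.2).2)).2.2 ≤ (Nat.unpair p.2).2 + j) ∧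
            sz (((findStep (fun k n => evaln k cf n) (Nat.unpair p.2).1)^[j]
            (none, p.1, (Nat.unpair p.2).2)).1) ≤ 2 * ((Nat.unpair p.2).2 + j) + 6 := by
          intro j
          induction j with
          | zero =>
            refine ⟨le_rfl, le_rfl, ?_⟩
            change sz (none : Option (Option ℕ)) ≤ _
            rw [sz_none]; omega
          | succ j ih =>
            rw [Function.iterate_succ_apply']
            obtain ⟨h1, h2, h3⟩ := ih
            generalize ((findStep (fun k n => evaln k cf n) (Nat.unpair p.2).1)^[j]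
              (none, p.1, (Nat.unpair p.2).2)) = q at h1 h2 h3 ⊢
            unfold findStep
            obtain ⟨q1, q2, q3⟩ := q
            dsimp only at h1 h2 h3 ⊢
            rcases q1 with _ | r
            · dsimp only
              have hn : sz (some (none : Option ℕ)) = 3 := by rw [sz_some, sz_none]
              split
              · refine ⟨h1, by dsimp only; omega, ?_⟩
                dsimp only; rw [hn]; omega
              · split
                · rcases evaln q2 cf (Nat.pair (Nat.unpair p.2).1 q3) with _ | x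
                  · refine ⟨h1, by simp only [findIn]; omega, ?_⟩
                    simp only [findIn]; rw [hn]; omega
                  · simp only [findIn]
                    split
                    · refine ⟨h1, by dsimp only; omega, ?_⟩
                      dsimp only
                      rw [sz_some, sz_some, sz_nat]; omega
                    · refine ⟨by dsimp only; omega, by dsimp only; omega, ?_⟩
                      dsimp only
                      rw [sz_none]; omega
                · refine ⟨h1, by dsimp only; omega, ?_⟩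
                  dsimp only; rw [hn]; omega
            · exact ⟨h1, by dsimp only; omega, by dsimp only; omega⟩
        obtain ⟨h1, h2, h3⟩ := hinv j
        rw [sz_prod, sz_prod (_ : Option (Option ℕ) × ℕ × ℕ).2, sz_nat, sz_nat]
        have h4 := Nat.unpair_right_le p.2
        have h5 : sz p = 1 + (2 * p.1 + 1) + (2 * p.2 + 1) := by rw [sz_prod, sz_nat, sz_nat]
        omega)
    refine (PF.getD (PF.fst' hiter) (PF.const none)).congr fun p => ?_
    rw [find_iter, Nat.pair_unpair]

/-- the search -/
def clk (c : Code) (a m : ℕ) : Bool :=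
  match evaln m c a with
  | none => false
  | some v => decide (v ≤ m)

/-- every computable function is bounded by a search which is decidable in polynomial time -/
theorem exists_clock {g : ℕ → ℕ} (hg : Computable g) : ∃ cd : ℕ → ℕ → Bool,
    PF (fun p : ℕ × ℕ => cd p.1 p.2) ∧ (∀ a m, cd a m = true → g a ≤ m) ∧
      ∀ a, ∃ m₀, ∀ m, m₀ ≤ m → cd a m = true := by
  obtain ⟨c, hc⟩ := Nat.Partrec.Code.exists_code.1 (Partrec.nat_iff.1 hg)
  have hev : ∀ n x, x ∈ c.eval n ↔ x = g n := by
    intro n x
    rw [hc]
    simp
  refine ⟨clk c, ?_, ?_, ?_⟩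
  · refine (PF.optCase (l := fun p : ℕ × ℕ => evaln p.2 c p.1) (g := fun _ => false)
      (h := fun p v => decide (v ≤ p.2)) ((pf_evaln c).comp (PF.pair PF.snd PF.fst))
      (PF.const false) (PF.le PF.snd (PF.snd' PF.fst))).congr fun p => ?_
    unfold clk
    rcases evaln p.2 c p.1 with _ | v <;> rfl
  · intro a m h
    unfold clk at h
    rcases hE : evaln m c a with _ | v
    · rw [hE] at h; exact absurd h (by simp)
    · rw [hE] at h
      have h1 := (hev a v).1 (Nat.Partrec.Code.evaln_sound (by rw [hE]; rfl))
      subst h1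
      simpa using h
  · intro a
    obtain ⟨k, hk⟩ := Nat.Partrec.Code.evaln_complete.1 ((hev a (g a)).2 rfl)
    refine ⟨max k (g a), fun m hm => ?_⟩
    have h1 := Nat.Partrec.Code.evaln_mono ((le_max_left _ _).trans hm) hk
    have h2 : evaln m c a = some (g a) := h1
    unfold clk
    rw [h2]
    simpa using (le_max_right _ _).trans hm

end Pool.Agent.T9h49.SC
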