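import Pool.Agent.T9h49.SC.Poly

/-!
Clocked verifiers: the universal simulation accepts a certificate. Normal form of `NP`, with
tests of bounded budget.
-/

set_option autoImplicit false

namespace Pool.Agent.T9h49.SC

open Turing Computability Pool.Agent.H583R2 N68a2faeb N793a5b8e

theorem stepU_halt (I : List Ins) (s : UCfg) (h : I.length ≤ s.1) : stepU I s = s := by
  unfold stepU
  rw [List.getElem?_eq_none h]

theorem U_stable {c : Code} {x : List Bool} {t t' : ℕ} {y : List Bool} (h : U c x t = some y)
    (ht : t ≤ t') : U c x t' = some y := by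
  obtain ⟨d, rfl⟩ := Nat.exists_eq_add_of_le ht
  have h1 : ¬ (runU c x t).1 < c.1.length := by
    intro hc
    unfold U at h
    rw [if_pos (by simpa using hc)] at h
    exact absurd h (by simp)
  have h2 : runU c x (t + d) = runU c x t := by
    induction d with
    | zero => rfl
    | succ d ih =>
      have h3 := ih (by omega)
      unfold runU at h3 h1 ⊢
      rw [← Nat.add_assoc, Function.iterate_succ_apply', h3]
      exact stepU_halt _ _ (not_lt.1 h1)
  unfold U at h ⊢
  rw [h2]
  exact h

theorem U_unique {c : Code} {x : List Bool} {t t' : ℕ} {y y' : List Bool} (h : U c x t = some y)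
    (h' : U c x t' = some y') : y = y' := by
  rcases le_total t t' with ht | ht
  · have := U_stable h ht
    rw [h'] at this
    exact (Option.some.inj this).symm
  · have := U_stable h' ht
    rw [h] at this
    exact Option.some.inj this

/-- the machine outputs `[true]` within `t` steps -/
def yes (c : Code) (x : List Bool) (t : ℕ) : Bool := (U c x t).getD [] == [true]

theorem yes_iff {c : Code} {x : List Bool} {t : ℕ} : yes c x t = true ↔ U c x t = some [true] := by
  unfold yes
  rcases h : U c x t with _ | y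
  · simp
  · simp

/-- clock -/
def tm (k : ℕ) (x : List Bool) : ℕ := (x.length + 2) ^ k

/-- acceptance of a certificate, clock `T` -/
def accT (c : Code) (T : ℕ) (x w : List Bool) : Bool := decide (w.length ≤ T) && yes c (eP x w) T

/-- acceptance of a certificate by the verifier `c` with exponent `k` -/
def acc (c : Code) (k : ℕ) (x w : List Bool) : Bool := accT c (tm k x) x w

/-- acceptance -/
def Acc (c : Code) (k : ℕ) (x : List Bool) : Prop := ∃ w, acc c k x w = true

theorem nat_le_pow (m n : ℕ) : m ≤ (n + 2) ^ m :=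
  ((Nat.lt_two_pow_self (n := m)).le).trans (Nat.pow_le_pow_left (by omega) _)

/-- normal form for languages in `NP` -/
theorem np_nf {L : DecisionProblem} (hL : L ∈ NP) :
    ∃ (c : Code) (k₀ : ℕ), ∀ k, k₀ ≤ k → ∀ x, (L x = true ↔ Acc c k x) := by
  obtain ⟨p, R, hR, hL⟩ := hL
  have hR' : PF (fun q : List Bool × List Bool =>
      decide (q.2.length ≤ p.eval q.1.length) && R q) :=
    PF.and (PF.le (PF.length PF.snd) (pf_eval (PF.length PF.fst) p)) (pf_of_isPolyTime2 hR)
  obtain ⟨c, k1, hc⟩ := code_of_isPolyTime2 (isPolyTime_of_pf2 hR')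
  obtain ⟨a, ha⟩ := poly_le p
  obtain ⟨b, hb⟩ := poly_le ((Polynomial.X + p + 2) ^ k1)
  refine ⟨c, max a b, fun k hk x => ?_⟩
  have hkey : ∀ w, acc c k x w = true ↔ (w.length ≤ p.eval x.length ∧ R (x, w) = true) := by
    intro w
    unfold acc accT
    rw [Bool.and_eq_true, decide_eq_true_eq, yes_iff]
    have hU := hc x w (max ((x.length + w.length + 2) ^ k1) (tm k x)) (le_max_left _ _)
    constructor
    · rintro ⟨_, h2⟩
      have h3 := U_stable h2 (le_max_right ((x.length + w.length + 2) ^ k1) (tm k x))
      rw [hU] at h3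
      have h4 := List.head_eq_of_cons_eq (Option.some.inj h3)
      simpa using h4
    · rintro ⟨h1, h2⟩
      have h3 : (x.length + 2) ^ a ≤ tm k x :=
        Nat.pow_le_pow_right (by omega) ((le_max_left _ _).trans hk)
      have h4 : (x.length + 2) ^ b ≤ tm k x :=
        Nat.pow_le_pow_right (by omega) ((le_max_right _ _).trans hk)
      have h5 : (x.length + w.length + 2) ^ k1 ≤ tm k x := by
        refine le_trans ?_ ((hb x.length).trans h4)
        have e : ((Polynomial.X + p + 2 : Polynomial ℕ) ^ k1).eval x.length =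
            (x.length + p.eval x.length + 2) ^ k1 := by
          simp
        rw [e]
        exact Nat.pow_le_pow_left (by omega) _
      refine ⟨(h1.trans (ha _)).trans h3, ?_⟩
      have h6 := hc x w (tm k x) h5
      rw [h6]
      congr 2
      simp [h1, h2]
  rw [hL x]
  unfold Acc
  simp only [hkey]

/-! ### bounded budget -/

/-- clock, capped -/
def tmC (k : ℕ) (x : List Bool) (N : ℕ) : ℕ := min (tm k x) N

/-- exhaustive search for a certificate among the first `N` strings -/
def accN (c : Code) (k : ℕ) (x : List Bool) (N : ℕ) : Bool :=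
  (List.range N).any (fun m => accT c (tmC k x N) x (str m))

/-- the budget `N` suffices -/
def enough (k : ℕ) (x : List Bool) (N : ℕ) : Bool :=
  decide (min (2 ^ (tmC k x N + 1)) (N + 1) ≤ N)

theorem enough_iff {k : ℕ} {x : List Bool} {N : ℕ} :
    enough k x N = true ↔ 2 ^ (tm k x + 1) ≤ N := by
  unfold enough tmC
  rw [decide_eq_true_eq]
  rcases le_total (tm k x) N with h | h
  · rw [min_eq_left h]
    omega
  · rw [min_eq_right h]
    have h1 : N < 2 ^ N := Nat.lt_two_pow_self
    have h2 : 2 ^ (N + 1) = 2 ^ N * 2 := pow_succ _ _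
    have h3 : 2 ^ (N + 1) ≤ 2 ^ (tm k x + 1) := Nat.pow_le_pow_right (by norm_num) (by omega)
    omega

theorem tm_le_of_enough {k : ℕ} {x : List Bool} {N : ℕ} (h : enough k x N = true) :
    tm k x ≤ N := by
  rw [enough_iff] at h
  have h1 : tm k x + 1 < 2 ^ (tm k x + 1) := Nat.lt_two_pow_self
  omega

theorem enough_mono {k : ℕ} {x : List Bool} {N N' : ℕ} (h : enough k x N = true) (hN : N ≤ N') :
    enough k x N' = true := by
  rw [enough_iff] at h ⊢
  omega

theorem accN_iff {c : Code} {k : ℕ} {x : List Bool} {N : ℕ} (h : enough k x N = true) :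
    accN c k x N = true ↔ Acc c k x := by
  have h1 := tm_le_of_enough h
  have h2 : tmC k x N = tm k x := min_eq_left h1
  rw [enough_iff] at h
  unfold accN Acc
  rw [h2, List.any_eq_true]
  constructor
  · rintro ⟨m, _, hm⟩
    exact ⟨str m, hm⟩
  · rintro ⟨w, hw⟩
    have hlen : w.length ≤ tm k x := by
      unfold acc accT at hw
      rw [Bool.and_eq_true, decide_eq_true_eq] at hw
      exact hw.1
    refine ⟨idx w, ?_, ?_⟩
    · rw [List.mem_range]
      have h3 := idx_lt w
      have h4 : 2 ^ (w.length + 1) ≤ 2 ^ (tm k x + 1) :=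
        Nat.pow_le_pow_right (by norm_num) (by omega)
      omega
    · rw [str_idx]; exact hw

section
variable {α : Type} [TEnc α]

theorem pf_yes {c : α → Code} {x : α → List Bool} {t : α → ℕ} (hc : PF c) (hx : PF x)
    (ht : PF t) : PF (fun a => yes (c a) (x a) (t a)) :=
  PF.beqStr (PF.getD (pf_U hc hx ht) (PF.const [])) (PF.const [true])

theorem pf_accT {c : α → Code} {T : α → ℕ} {x w : α → List Bool} (hc : PF c) (hT : PF T)
    (hx : PF x) (hw : PF w) : PF (fun a => accT (c a) (T a) (x a) (w a)) :=
  PF.and (PF.le (PF.length hw) hT) (pf_yes hc (pf_eP hx hw) hT)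

theorem pf_tmC {k N : α → ℕ} {x : α → List Bool} (hk : PF k) (hx : PF x) (hN : PF N) :
    PF (fun a => tmC (k a) (x a) (N a)) :=
  pf_cpow (PF.add (PF.length hx) (PF.const 2)) hk hN

theorem pf_accN {c : α → Code} {k N : α → ℕ} {x : α → List Bool} (hc : PF c) (hk : PF k)
    (hx : PF x) (hN : PF N) : PF (fun a => accN (c a) (k a) (x a) (N a)) := by
  unfold accN
  exact PF.any (f := fun a m => accT (c a) (tmC (k a) (x a) (N a)) (x a) (str m))
    (PF.range hN) (pf_accT (hc.comp PF.fst) (pf_tmC (hk.comp PF.fst) (hx.comp PF.fst)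
      (hN.comp PF.fst)) (hx.comp PF.fst) (PF.str PF.snd))

theorem pf_enough {k N : α → ℕ} {x : α → List Bool} (hk : PF k) (hx : PF x) (hN : PF N) :
    PF (fun a => enough (k a) (x a) (N a)) := by
  unfold enough
  exact PF.le (pf_cexp (PF.succ (pf_tmC hk hx hN)) (PF.succ hN)) hN

end

end Pool.Agent.T9h49.SC
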