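import Pool.Agent.H583R2.Expo
import Pool.Prelude.Def_F_458e953d

/-!
Polynomial-time functions in the sense of the frozen definitions and the closure library.
-/

set_option autoImplicit false

namespace Pool.Agent.T9h49.SC

open Turing Computability Pool.Agent.H583R2 N68a2faeb N793a5b8e

/-- the standard code of a bit string -/
def eL (x : List Bool) : List Bool := x.flatMap (fun b => [true, b, false])

/-- the delimited form -/
def del (l : List Bool) : List Bool := l.flatMap (fun b => [true, b]) ++ [false]

/-- the standard code of a pair of bit strings -/
def eP (x w : List Bool) : List Bool := del (eL x) ++ eL w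

theorem delimit_eq (l : List Bool) : N487b59b3.delimit l = del l := by
  induction l with
  | nil => rfl
  | cons b l ih => simp [N487b59b3.delimit, del, ih]

theorem encode_bool (b : Bool) : (N487b59b3.toEncoding (α := Bool)).encode b = [b] := rfl

theorem encode_list (x : List Bool) : (N487b59b3.toEncoding (α := List Bool)).encode x = eL x := by
  change ((x.map N487b59b3.bitEncode).map N487b59b3.delimit).flatten = eL x
  induction x with
  | nil => rfl
  | cons b l ih =>
    simp only [List.map_cons, List.flatten_cons, ih]
    rfl

theorem encode_pair (x w : List Bool) :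
    (N487b59b3.toEncoding (α := List Bool × List Bool)).encode (x, w) = eP x w := by
  change N487b59b3.delimit (N487b59b3.bitEncode x) ++ N487b59b3.bitEncode w = _
  have h1 : N487b59b3.bitEncode x = eL x := encode_list x
  have h2 : N487b59b3.bitEncode w = eL w := encode_list w
  rw [h1, h2, delimit_eq]
  rfl

theorem eL_length (x : List Bool) : (eL x).length = 3 * x.length := by
  induction x with
  | nil => rfl
  | cons b l ih =>
    simp only [eL, List.flatMap_cons, List.length_append, List.length_cons] at ih ⊢
    simp only [List.length_nil]
    omega

theorem del_length (x : List Bool) : (del x).length = 2 * x.length + 1 := by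
  induction x with
  | nil => rfl
  | cons b l ih =>
    simp only [del, List.flatMap_cons, List.length_append, List.length_cons] at ih ⊢
    simp only [List.length_nil] at ih ⊢
    omega

theorem eP_length (x w : List Bool) : (eP x w).length = 6 * x.length + 1 + 3 * w.length := by
  rw [eP, List.length_append, del_length, eL_length, eL_length]
  omega

theorem eL_getD (x : List Bool) (r : List Bool) : ∀ i : ℕ, i < x.length →
    (eL x ++ r).getD (3 * i + 1) false = x.getD i false := by
  induction x with
  | nil => intro i hi; simp at hi
  | cons b l ih =>
    intro i hi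
    cases i with
    | zero => simp [eL]
    | succ i =>
      have := ih i (by simpa using hi)
      have e : 3 * (i + 1) + 1 = (3 * i + 1) + 1 + 1 + 1 := by ring
      rw [e]
      simp only [eL, List.flatMap_cons, List.cons_append, List.nil_append, List.getD_cons_succ]
      exact this

theorem del_eL_cons (b : Bool) (l r : List Bool) : del (eL (b :: l)) ++ r =
    true :: true :: true :: b :: true :: false :: (del (eL l) ++ r) := by
  simp [del, eL]

theorem del_getD_false (x : List Bool) (r : List Bool) :
    (del (eL x) ++ r).getD (6 * x.length) false = false := by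
  induction x with
  | nil => simp [del, eL]
  | cons b l ih =>
    rw [del_eL_cons, List.length_cons]
    have e : 6 * (l.length + 1) = 6 * l.length + 1 + 1 + 1 + 1 + 1 + 1 := by ring
    rw [e]
    simp only [List.getD_cons_succ]
    exact ih

theorem del_getD_true (x : List Bool) (r : List Bool) : ∀ i : ℕ, i < x.length →
    (del (eL x) ++ r).getD (6 * i) false = true := by
  induction x with
  | nil => intro i hi; simp at hi
  | cons b l ih =>
    intro i hi
    rw [del_eL_cons]
    cases i with
    | zero => simp
    | succ i =>
      have e : 6 * (i + 1) = 6 * i + 1 + 1 + 1 + 1 + 1 + 1 := by ring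
      rw [e]
      simp only [List.getD_cons_succ]
      exact ih i (by simpa using hi)

theorem del_getD_val (x : List Bool) (r : List Bool) : ∀ i : ℕ, i < x.length →
    (del (eL x) ++ r).getD (6 * i + 3) false = x.getD i false := by
  induction x with
  | nil => intro i hi; simp at hi
  | cons b l ih =>
    intro i hi
    rw [del_eL_cons]
    cases i with
    | zero => simp
    | succ i =>
      have e : 6 * (i + 1) + 3 = (6 * i + 3) + 1 + 1 + 1 + 1 + 1 + 1 := by ring
      rw [e]
      simp only [List.getD_cons_succ]
      exact ih i (by simpa using hi)

/-! ### decoders -/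

/-- decode a coded bit string starting at position `s` -/
def rd (s : ℕ) (y : List Bool) : List Bool :=
  ((List.range y.length).filter (fun i => decide (s + 3 * i + 1 < y.length))).map
    (fun i => y.getD (s + 3 * i + 1) false)

/-- the number of bits of the first component -/
def cnt (z : List Bool) : ℕ :=
  ((List.range (z.length + 1)).find? (fun i => !(z.getD (6 * i) false))).getD 0

/-- decoder for pairs -/
def uP (z : List Bool) : List Bool × List Bool :=
  ((List.range (cnt z)).map (fun i => z.getD (6 * i + 3) false), rd (6 * cnt z + 1) z)

/-- decoder for strings -/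
def uL (y : List Bool) : List Bool := rd 0 y

theorem filter_range (n m : ℕ) (h : n ≤ m) (p : ℕ → Bool) (hp : ∀ i, p i = decide (i < n)) :
    (List.range m).filter p = List.range n := by
  obtain ⟨d, rfl⟩ := Nat.exists_eq_add_of_le h
  rw [List.range_add, List.filter_append]
  have h1 : (List.range n).filter p = List.range n := by
    rw [List.filter_eq_self]
    intro a ha
    rw [hp]
    simpa using ha
  have h2 : ((List.range d).map (fun x => n + x)).filter p = [] := by
    rw [List.filter_eq_nil_iff]
    intro a ha
    rw [List.mem_map] at ha
    obtain ⟨j, _, rfl⟩ := ha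
    rw [hp]
    simp
  rw [h1, h2, List.append_nil]

theorem rd_append (p x : List Bool) : rd p.length (p ++ eL x) = x := by
  unfold rd
  have hlen : (p ++ eL x).length = p.length + 3 * x.length := by
    rw [List.length_append, eL_length]
  rw [filter_range x.length _ (by rw [hlen]; omega) _ (by
    intro i
    rw [hlen]
    by_cases h : i < x.length
    · simp only [h]
      simp only [decide_eq_true_eq, decide_true]
      omega
    · simp only [h]
      simp only [decide_eq_false_iff_not, decide_false]
      omega)]
  have e : ∀ i < x.length, (p ++ eL x).getD (p.length + 3 * i + 1) false = x.getD i false := by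
    intro i hi
    have h1 := eL_getD x [] i hi
    rw [List.append_nil] at h1
    rw [← h1, List.getD_append_right _ _ _ _ (by omega)]
    congr 1
    omega
  apply List.ext_getElem
  · simp
  · intro i h1 h2
    simp only [List.getElem_map, List.getElem_range]
    have h3 : i < x.length := h2
    rw [e i h3, List.getD_eq_getElem _ _ h3]

theorem uL_eL (x : List Bool) : uL (eL x) = x := by
  have := rd_append [] x
  simpa [uL] using this

theorem cnt_eP (x w : List Bool) : cnt (eP x w) = x.length := by
  unfold cnt eP
  have h : (List.range ((del (eL x) ++ eL w).length + 1)).find?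
      (fun i => !((del (eL x) ++ eL w).getD (6 * i) false)) = some x.length := by
    rw [List.find?_range_eq_some]
    refine ⟨?_, ?_, ?_⟩
    · rw [del_getD_false]; rfl
    · rw [List.mem_range, List.length_append, del_length, eL_length]; omega
    · intro j hj
      rw [del_getD_true _ _ _ hj]; rfl
  rw [h]
  rfl

theorem uP_eP (x w : List Bool) : uP (eP x w) = (x, w) := by
  unfold uP
  rw [cnt_eP]
  have h1 : (List.range x.length).map (fun i => (eP x w).getD (6 * i + 3) false) = x := by
    apply List.ext_getElem
    · simp
    · intro i h1 h2
      simp only [List.getElem_map, List.getElem_range]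
      have h3 : i < x.length := h2
      unfold eP
      rw [del_getD_val _ _ _ h3, List.getD_eq_getElem _ _ h3]
  have h2 : rd (6 * x.length + 1) (eP x w) = w := by
    have := rd_append (del (eL x)) w
    rw [del_length, eL_length] at this
    have e : 2 * (3 * x.length) + 1 = 6 * x.length + 1 := by ring
    rw [e] at this
    exact this
  rw [h1, h2]

section
variable {α : Type} [TEnc α]

theorem pf_rd {s : α → ℕ} {y : α → List Bool} (hs : PF s) (hy : PF y) :
    PF (fun a => rd (s a) (y a)) := by
  unfold rd
  have hy2 : PF (fun p : α × ℕ => y p.1) := hy.comp PF.fst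
  have hpos : PF (fun p : α × ℕ => s p.1 + 3 * p.2 + 1) :=
    PF.succ (PF.add (hs.comp PF.fst) (PF.mul (PF.const 3) PF.snd))
  exact PF.map (f := fun a i => (y a).getD (s a + 3 * i + 1) false)
    (PF.filter (f := fun a i => decide (s a + 3 * i + 1 < (y a).length))
      (PF.range (PF.length hy)) (PF.lt hpos (PF.length hy2)))
    (PF.listGetD hpos hy2 (PF.const false))

theorem pf_uL {y : α → List Bool} (hy : PF y) : PF (fun a => uL (y a)) := pf_rd (PF.const 0) hy

theorem pf_cnt {z : α → List Bool} (hz : PF z) : PF (fun a => cnt (z a)) := by
  unfold cnt
  have hz2 : PF (fun p : α × ℕ => z p.1) := hz.comp PF.fst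
  exact PF.getD (PF.find (f := fun a i => !((z a).getD (6 * i) false))
    (PF.range (PF.succ (PF.length hz)))
    (PF.not (PF.listGetD (PF.mul (PF.const 6) PF.snd) hz2 (PF.const false)))) (PF.const 0)

theorem pf_uP {z : α → List Bool} (hz : PF z) : PF (fun a => uP (z a)) := by
  unfold uP
  have hz2 : PF (fun p : α × ℕ => z p.1) := hz.comp PF.fst
  exact PF.pair (PF.map (f := fun a i => (z a).getD (6 * i + 3) false) (PF.range (pf_cnt hz))
      (PF.listGetD (PF.add (PF.mul (PF.const 6) PF.snd) (PF.const 3)) hz2 (PF.const false)))
    (pf_rd (PF.succ (PF.mul (PF.const 6) (pf_cnt hz))) hz)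

theorem pf_eL {x : α → List Bool} (hx : PF x) : PF (fun a => eL (x a)) := by
  unfold eL
  exact PF.flatMap (f := fun _ b => [true, b, false]) hx
    (PF.cons (PF.const true) (PF.cons PF.snd (PF.const [false])))

theorem pf_del {x : α → List Bool} (hx : PF x) : PF (fun a => del (x a)) := by
  unfold del
  exact PF.append (PF.flatMap (f := fun _ b => [true, b]) hx
    (PF.cons (PF.const true) (PF.cons PF.snd (PF.const [])))) (PF.const [false])

theorem pf_eP {x w : α → List Bool} (hx : PF x) (hw : PF w) : PF (fun a => eP (x a) (w a)) :=
  PF.append (pf_del (pf_eL hx)) (pf_eL hw)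

end

end Pool.Agent.T9h49.SC
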