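import Pool.Agent.T9h49.SC.Stage

/-!
The languages `K` in `NP` and `M` in `coNP`.
-/

set_option autoImplicit false

namespace Pool.Agent.T9h49.SC

open Turing Computability Pool.Agent.H583R2 N68a2faeb N793a5b8e

/-- the instance which asks for the pair `e` at the input `x`, with padding `p` -/
def inst (e : ℕ) (x : List Bool) (p : ℕ) : List Bool :=
  eP (eP (List.replicate e true) x) (List.replicate p true)

/-- the index in an instance -/
def iE (z : List Bool) : ℕ := (uP (uP z).1).1.length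

/-- the input in an instance -/
def iX (z : List Bool) : List Bool := (uP (uP z).1).2

theorem iE_inst (e : ℕ) (x : List Bool) (p : ℕ) : iE (inst e x p) = e := by
  simp [iE, inst, uP_eP]

theorem iX_inst (e : ℕ) (x : List Bool) (p : ℕ) : iX (inst e x p) = x := by
  simp [iX, inst, uP_eP]

theorem le_inst (e : ℕ) (x : List Bool) (p : ℕ) : p ≤ (inst e x p).length := by
  unfold inst
  rw [eP_length, List.length_replicate]
  omega

section
variable {α : Type} [TEnc α]

theorem pf_inst {e p : α → ℕ} {x : α → List Bool} (he : PF e) (hx : PF x) (hp : PF p) :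
    PF (fun a => inst (e a) (x a) (p a)) :=
  pf_eP (pf_eP (PF.replicate he (PF.const true)) hx) (PF.replicate hp (PF.const true))

theorem pf_iE {z : α → List Bool} (hz : PF z) : PF (fun a => iE (z a)) :=
  PF.length (PF.fst' (pf_uP (PF.fst' (pf_uP hz))))

theorem pf_iX {z : α → List Bool} (hz : PF z) : PF (fun a => iX (z a)) :=
  PF.snd' (pf_uP (PF.fst' (pf_uP hz)))

end

variable (cd : ℕ → ℕ → Bool)

/-- the instance is valid: its pair is active at its length, and the padding suffices -/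
def valid (z : List Bool) : Bool :=
  act cd z.length (iE z) && decide (tmC (ix (iE z)).2.2 (iX z) (z.length + 1) ≤ z.length)

theorem valid_iff (z : List Bool) : valid cd z = true ↔
    act cd z.length (iE z) = true ∧ tm (ix (iE z)).2.2 (iX z) ≤ z.length := by
  unfold valid tmC
  rw [Bool.and_eq_true, decide_eq_true_eq]
  constructor
  · rintro ⟨h1, h2⟩
    refine ⟨h1, ?_⟩
    by_contra h3
    rw [min_eq_right (by omega)] at h2
    omega
  · rintro ⟨h1, h2⟩
    exact ⟨h1, (min_le_left _ _).trans h2⟩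

def RK (q : List Bool × List Bool) : Bool :=
  valid cd q.1 && accT (ix (iE q.1)).1 (tmC (ix (iE q.1)).2.2 (iX q.1) q.1.length) (iX q.1) q.2

def RN (q : List Bool × List Bool) : Bool :=
  !(valid cd q.1) ||
    accT (ix (iE q.1)).2.1 (tmC (ix (iE q.1)).2.2 (iX q.1) q.1.length) (iX q.1) q.2

open Classical in
noncomputable def KK : DecisionProblem := fun z =>
  decide (∃ w : List Bool, w.length ≤ z.length ∧ RK cd (z, w) = true)

open Classical in
noncomputable def NN : DecisionProblem := fun z =>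
  decide (∃ w : List Bool, w.length ≤ z.length ∧ RN cd (z, w) = true)

theorem pf_valid (hcd : PF (fun p : ℕ × ℕ => cd p.1 p.2)) {α : Type} [TEnc α]
    {z : α → List Bool} (hz : PF z) :
    PF (fun a => valid cd (z a)) := by
  unfold valid
  exact PF.and (pf_act hcd (PF.length hz) (pf_iE hz))
    (PF.le (pf_tmC (PF.snd' (PF.snd' (pf_ix (pf_iE hz)))) (pf_iX hz) (PF.succ (PF.length hz)))
      (PF.length hz))

theorem pf_RK (hcd : PF (fun p : ℕ × ℕ => cd p.1 p.2)) : PF (RK cd) := by
  unfold RK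
  exact PF.and (pf_valid cd hcd PF.fst) (pf_accT (PF.fst' (pf_ix (pf_iE PF.fst)))
    (pf_tmC (PF.snd' (PF.snd' (pf_ix (pf_iE PF.fst)))) (pf_iX PF.fst) (PF.length PF.fst))
    (pf_iX PF.fst) PF.snd)

theorem pf_RN (hcd : PF (fun p : ℕ × ℕ => cd p.1 p.2)) : PF (RN cd) := by
  unfold RN
  exact PF.or (PF.not (pf_valid cd hcd PF.fst)) (pf_accT (PF.fst' (PF.snd' (pf_ix (pf_iE PF.fst))))
    (pf_tmC (PF.snd' (PF.snd' (pf_ix (pf_iE PF.fst)))) (pf_iX PF.fst) (PF.length PF.fst))
    (pf_iX PF.fst) PF.snd)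

theorem mem_np {R : List Bool × List Bool → Bool} (hR : PF R) {L : DecisionProblem}
    (hL : ∀ z, L z = true ↔ ∃ w : List Bool, w.length ≤ z.length ∧ R (z, w) = true) : L ∈ NP :=
  ⟨Polynomial.X, R, isPolyTime_of_pf2 hR, fun z => by rw [hL z, Polynomial.eval_X]⟩

theorem KK_iff (z : List Bool) :
    KK cd z = true ↔ ∃ w : List Bool, w.length ≤ z.length ∧ RK cd (z, w) = true := by
  simp [KK]

theorem NN_iff (z : List Bool) :
    NN cd z = true ↔ ∃ w : List Bool, w.length ≤ z.length ∧ RN cd (z, w) = true := by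
  simp [NN]

theorem KK_np (hcd : PF (fun p : ℕ × ℕ => cd p.1 p.2)) : KK cd ∈ NP :=
  mem_np (pf_RK cd hcd) (KK_iff cd)

theorem NN_np (hcd : PF (fun p : ℕ × ℕ => cd p.1 p.2)) : NN cd ∈ NP :=
  mem_np (pf_RN cd hcd) (NN_iff cd)

theorem search_iff {c : Code} {k : ℕ} {x : List Bool} {n : ℕ} (h : tm k x ≤ n) :
    (∃ w : List Bool, w.length ≤ n ∧ accT c (tmC k x n) x w = true) ↔ Acc c k x := by
  have h1 : tmC k x n = tm k x := min_eq_left h
  rw [h1]
  constructor
  · rintro ⟨w, _, hw⟩; exact ⟨w, hw⟩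
  · rintro ⟨w, hw⟩
    refine ⟨w, ?_, hw⟩
    unfold acc accT at hw
    rw [Bool.and_eq_true, decide_eq_true_eq] at hw
    omega

theorem KK_valid {z : List Bool} (h : valid cd z = true) :
    KK cd z = true ↔ Acc (ix (iE z)).1 (ix (iE z)).2.2 (iX z) := by
  rw [KK_iff]
  unfold RK
  simp only [h, Bool.true_and]
  exact search_iff ((valid_iff cd z).1 h).2

theorem NN_valid {z : List Bool} (h : valid cd z = true) :
    NN cd z = true ↔ Acc (ix (iE z)).2.1 (ix (iE z)).2.2 (iX z) := by
  rw [NN_iff]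
  unfold RN
  simp only [h, Bool.not_true, Bool.false_or]
  exact search_iff ((valid_iff cd z).1 h).2

theorem KK_invalid {z : List Bool} (h : ¬ valid cd z = true) : KK cd z = false := by
  rw [← Bool.not_eq_true, KK_iff]
  unfold RK
  rintro ⟨w, _, hw⟩
  rw [Bool.and_eq_true] at hw
  exact h hw.1

theorem NN_invalid {z : List Bool} (h : ¬ valid cd z = true) : NN cd z = true := by
  rw [NN_iff]
  unfold RN
  refine ⟨[], by simp, ?_⟩
  rw [Bool.not_eq_true] at h
  simp [h]

/-- the language in `coNP` -/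
noncomputable def MM : DecisionProblem := fun z => !(NN cd z)

theorem MM_conp (hcd : PF (fun p : ℕ × ℕ => cd p.1 p.2)) : MM cd ∈ coNP := by
  change (MM cd)ᶜ ∈ NP
  have h : (MM cd)ᶜ = NN cd := by
    funext z
    simp [MM]
  rw [h]
  exact NN_np cd hcd

/-- `K` and `M` agree at the valid instances of good pairs and at the invalid instances -/
theorem agree {z : List Bool} (h : valid cd z = true → Good (iE z)) : KK cd z = MM cd z := by
  by_cases hv : valid cd z = true
  · have h1 := KK_valid cd hv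
    have h2 := NN_valid cd hv
    have h3 := h hv (iX z)
    unfold MM
    rw [Bool.eq_iff_iff, h1, Bool.not_eq_true', ← Bool.not_eq_true, h2]
    exact h3
  · rw [KK_invalid cd hv, MM, NN_invalid cd hv]
    rfl

variable {cd} {g : ℕ → ℕ}
  (hg : Clk cd g)

include hg

theorem hard {L : DecisionProblem} (hL : L ∈ NP ∩ coNP) :
    ∃ f : List Bool → List Bool, IsPolyTime f ∧ ∀ x, L x = KK cd (f x) ∧ L x = MM cd (f x) := by
  obtain ⟨c1, k1, h1⟩ := np_nf hL.1
  obtain ⟨c2, k2, h2⟩ := np_nf (L := Lᶜ) hL.2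
  set k := max k1 k2 with hk
  obtain ⟨e, he⟩ := exists_ix (c1, c2, k)
  have hA1 : ∀ x, Acc (ix e).1 (ix e).2.2 x ↔ L x = true := fun x => by
    rw [he]; exact (h1 k (le_max_left _ _) x).symm
  have hA2 : ∀ x, Acc (ix e).2.1 (ix e).2.2 x ↔ L x = false := fun x => by
    rw [he]
    have h3 : Lᶜ x = true ↔ L x = false := by simp
    rw [← h3]
    exact (h2 k (le_max_right _ _) x).symm
  have hgood : Good e := by
    intro x
    rw [hA1, hA2]
    simp
  obtain ⟨J, hJ⟩ := good_active hg hgood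
  have hpf : PF (fun x : List Bool => inst e x ((x.length + 2) ^ k + J)) :=
    pf_inst (PF.const e) PF.id (PF.add (pf_powK (PF.add (PF.length PF.id) (PF.const 2)) k)
      (PF.const J))
  refine ⟨_, isPolyTime_of_pf hpf, fun x => ?_⟩
  have hlen := le_inst e x ((x.length + 2) ^ k + J)
  have hv : valid cd (inst e x ((x.length + 2) ^ k + J)) = true := by
    rw [valid_iff, iE_inst, iX_inst, he]
    refine ⟨hJ _ (by omega), ?_⟩
    unfold tm
    dsimp only
    omega
  have hK := KK_valid cd hv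
  rw [iE_inst, iX_inst, hA1] at hK
  have hag := agree cd (z := inst e x ((x.length + 2) ^ k + J)) fun _ => by
    rw [iE_inst]; exact hgood
  refine ⟨?_, ?_⟩
  · rw [Bool.eq_iff_iff]; exact hK.symm
  · rw [← hag, Bool.eq_iff_iff]; exact hK.symm

theorem intervals (n₀ : ℕ) : ∃ n, n₀ ≤ n ∧ ∀ z : List Bool, n ≤ z.length → z.length ≤ g n →
    KK cd z = MM cd z := by
  obtain ⟨n, hn, h1, h2⟩ := true_stage hg n₀
  refine ⟨n, hn, fun z hz1 hz2 => agree cd fun hv => ?_⟩
  have h3 := ((valid_iff cd z).1 hv).1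
  unfold act at h3
  rw [st_const hg h1 _ hz1 hz2] at h3
  exact h2 _ h3

end Pool.Agent.T9h49.SC
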