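import Pool.Agent.T9h49.SC.Bridge

/-!
The equivalence of `IsPolyTime` (frozen definitions) and `PF` (closure library), codes of
polynomial-time functions.
-/

set_option autoImplicit false

namespace Pool.Agent.T9h49.SC

open Turing Computability Pool.Agent.H583R2 N68a2faeb N793a5b8e

/-- monotonicity in the time bound -/
def outMono {tm : FinTM2} {l : List (tm.Γ tm.k₀)} {o : Option (List (tm.Γ tm.k₁))} {m n : ℕ}
    (h : TM2OutputsInTime tm l o m) (hmn : m ≤ n) : TM2OutputsInTime tm l o n :=
  ⟨h.toEvalsTo, h.steps_le_m.trans hmn⟩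

/-- general transfer -/
theorem poly_of_pf {α β : Type} (ea : α → List Bool) (eb : β → List Bool) (f : α → β)
    {F : List Bool → List Bool} (hF : PF F) (h : ∀ a, F (ea a) = eb (f a)) :
    Nonempty (TM2ComputableInPolyTime ea eb f) := by
  obtain ⟨k, M, hM⟩ := tm_poly (f := F) (id : List Bool → List Bool) hF
  refine ⟨{ toTM2ComputableAux := M.toTM2ComputableAux
            time := Polynomial.C k * (Polynomial.X + Polynomial.C 2) ^ k + Polynomial.C k
            outputsFun := fun a => ?_ }⟩
  have h1 := M.outputsFun (ea a)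
  have h2 : M.time (id (ea a)).length ≤ (Polynomial.C k * (Polynomial.X + Polynomial.C 2) ^ k +
      Polynomial.C k).eval (ea a).length := by
    simp only [Polynomial.eval_add, Polynomial.eval_mul, Polynomial.eval_C, Polynomial.eval_pow,
      Polynomial.eval_X]
    exact hM _
  have h3 := outMono h1 h2
  rw [h a] at h3
  exact h3

theorem isPolyTime_of_pf {f : List Bool → List Bool} (h : PF f) : IsPolyTime f := by
  refine poly_of_pf _ _ f (F := fun y => eL (f (uL y))) (pf_eL (h.comp (pf_uL PF.id))) ?_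
  intro a
  rw [encode_list, encode_list, uL_eL]

theorem isPolyTime_of_pf2 {R : List Bool × List Bool → Bool} (h : PF R) : IsPolyTime R := by
  refine poly_of_pf _ _ R (F := fun y => [R (uP y)])
    (PF.cons (h.comp (pf_uP PF.id)) (PF.const [])) ?_
  rintro ⟨x, w⟩
  rw [encode_pair, uP_eP]
  rfl

/-! ### polynomials -/

theorem poly_le (P : Polynomial ℕ) : ∃ c, ∀ n, P.eval n ≤ (n + 2) ^ c := by
  induction P using Polynomial.induction_on' with
  | add p q hp hq =>
    obtain ⟨a, ha⟩ := hp
    obtain ⟨b, hb⟩ := hq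
    refine ⟨a + b + 1, fun n => ?_⟩
    rw [Polynomial.eval_add]
    have h1 : (n + 2) ^ a ≤ (n + 2) ^ (a + b) := Nat.pow_le_pow_right (by omega) (by omega)
    have h2 : (n + 2) ^ b ≤ (n + 2) ^ (a + b) := Nat.pow_le_pow_right (by omega) (by omega)
    have h3 : (n + 2) ^ (a + b + 1) = (n + 2) ^ (a + b) * (n + 2) := pow_succ _ _
    have := ha n
    have := hb n
    nlinarith [Nat.zero_le (n * (n + 2) ^ (a + b))]
  | monomial k a =>
    refine ⟨a + k, fun n => ?_⟩
    rw [Polynomial.eval_monomial, pow_add]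
    have h1 : a ≤ (n + 2) ^ a := by
      have := (Nat.lt_two_pow_self (n := a)).le
      exact this.trans (Nat.pow_le_pow_left (by omega) _)
    exact Nat.mul_le_mul h1 (Nat.pow_le_pow_left (by omega) _)

theorem poly_le' (P : Polynomial ℕ) (m : ℕ) : ∃ c, ∀ n, m * P.eval n ≤ (n + 2) ^ c := by
  obtain ⟨c, hc⟩ := poly_le (Polynomial.C m * P)
  exact ⟨c, fun n => by simpa using hc n⟩

/-- `(a n + b + 2) ^ c ≤ (n + 2) ^ c'` -/
theorem pow_lin (a b c : ℕ) : ∃ c', ∀ n, (a * n + b + 2) ^ c ≤ (n + 2) ^ c' := by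
  refine ⟨(a + b + 2) * c, fun n => ?_⟩
  rw [pow_mul]
  refine Nat.pow_le_pow_left ?_ _
  have h1 : a * n + b + 2 ≤ (a + b + 1) * (n + 2) := by nlinarith
  have h2 : a + b + 1 ≤ (n + 2) ^ (a + b + 1) := by
    have := (Nat.lt_two_pow_self (n := a + b + 1)).le
    exact this.trans (Nat.pow_le_pow_left (by omega) _)
  calc a * n + b + 2 ≤ (a + b + 1) * (n + 2) := h1
    _ ≤ (n + 2) ^ (a + b + 1) * (n + 2) := Nat.mul_le_mul_right _ h2
    _ = _ := (pow_succ _ _).symm

/-! ### codes -/

theorem code_of_poly {α β : Type} {ea : α → List Bool} {eb : β → List Bool} {f : α → β}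
    (h : Nonempty (TM2ComputableInPolyTime ea eb f)) :
    ∃ (c : Code) (k : ℕ), ∀ a t, ((ea a).length + 2) ^ k ≤ t → U c (ea a) t = some (eb (f a)) := by
  obtain ⟨M⟩ := h
  obtain ⟨k, hk⟩ := poly_le' M.time (maxDep M.tm)
  refine ⟨codeOf M.inputAlphabet M.outputAlphabet, k, fun a t ht => ?_⟩
  exact U_codeOf M.inputAlphabet M.outputAlphabet (ea a) (eb (f a)) _ (M.outputsFun a) t
    ((hk _).trans ht)

theorem code_of_isPolyTime {f : List Bool → List Bool} (h : IsPolyTime f) :
    ∃ (c : Code) (k : ℕ), ∀ x t, (x.length + 2) ^ k ≤ t → U c (eL x) t = some (eL (f x)) := by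
  obtain ⟨c, k, hk⟩ := code_of_poly h
  obtain ⟨k', hk'⟩ := pow_lin 3 0 k
  refine ⟨c, k', fun x t ht => ?_⟩
  have h1 := hk x t (by
    rw [encode_list, eL_length]
    exact (hk' x.length).trans ht)
  rwa [encode_list, encode_list] at h1

theorem code_of_isPolyTime2 {R : List Bool × List Bool → Bool} (h : IsPolyTime R) :
    ∃ (c : Code) (k : ℕ), ∀ x w t, (x.length + w.length + 2) ^ k ≤ t →
      U c (eP x w) t = some [R (x, w)] := by
  obtain ⟨c, k, hk⟩ := code_of_poly h
  obtain ⟨k', hk'⟩ := pow_lin 6 1 k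
  refine ⟨c, k', fun x w t ht => ?_⟩
  have h1 := hk (x, w) t (by
    rw [encode_pair, eP_length]
    refine le_trans (le_trans (Nat.pow_le_pow_left ?_ _) (hk' (x.length + w.length))) ht
    omega)
  rwa [encode_pair, encode_bool] at h1

section
variable {α : Type} [TEnc α]

theorem pf_powK {n : α → ℕ} (hn : PF n) (k : ℕ) : PF (fun a => n a ^ k) := pf_powConst hn k

theorem pf_U {c : α → Code} {x : α → List Bool} {t : α → ℕ} (hc : PF c) (hx : PF x) (ht : PF t) :
    PF (fun a => U (c a) (x a) (t a)) := PF.U.comp (hc.pair (hx.pair ht))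

end

theorem pf_of_isPolyTime {f : List Bool → List Bool} (h : IsPolyTime f) : PF f := by
  obtain ⟨c, k, hk⟩ := code_of_isPolyTime h
  have h1 : PF (fun x : List Bool => uL ((U c (eL x) ((x.length + 2) ^ k)).getD [])) :=
    pf_uL (PF.getD (pf_U (PF.const c) (pf_eL PF.id)
      (pf_powK (PF.add (PF.length PF.id) (PF.const 2)) k)) (PF.const []))
  refine h1.congr fun x => ?_
  rw [hk x _ le_rfl, Option.getD_some, uL_eL]

theorem pf_of_isPolyTime2 {R : List Bool × List Bool → Bool} (h : IsPolyTime R) : PF R := by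
  obtain ⟨c, k, hk⟩ := code_of_isPolyTime2 h
  have h1 : PF (fun p : List Bool × List Bool =>
      ((U c (eP p.1 p.2) ((p.1.length + p.2.length + 2) ^ k)).getD []).headD false) :=
    PF.headD (PF.getD (pf_U (PF.const c) (pf_eP PF.fst PF.snd)
      (pf_powK (PF.add (PF.add (PF.length PF.fst) (PF.length PF.snd)) (PF.const 2)) k))
      (PF.const [])) (PF.const false)
  refine h1.congr fun p => ?_
  rw [hk p.1 p.2 _ le_rfl, Option.getD_some]
  rfl

/-- polynomials of unary numbers -/
theorem pf_eval {α : Type} [TEnc α] {n : α → ℕ} (hn : PF n) (P : Polynomial ℕ) :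
    PF (fun a => P.eval (n a)) := by
  induction P using Polynomial.induction_on' with
  | add p q hp hq => exact (PF.add hp hq).congr (fun a => Polynomial.eval_add.symm)
  | monomial k a =>
    exact (PF.mul (PF.const a) (pf_powK hn k)).congr (fun b => (Polynomial.eval_monomial).symm)

end Pool.Agent.T9h49.SC
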