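import Pool.Agent.T9h49.SC.Acc

/-!
Pairs of clocked verifiers, the budgeted search for a failure, and the stages.
-/

set_option autoImplicit false

namespace Pool.Agent.T9h49.SC

open Turing Computability Pool.Agent.H583R2 N68a2faeb N793a5b8e

/-- a pair of verifiers with a common exponent -/
abbrev Ix := Code × Code × ℕ

def decIx : Tr → Ix := decP decCode (decP decCode decN)

/-- the pair number `e` -/
def ix (e : ℕ) : Ix := decIx (parse (str e))

theorem exists_ix (i : Ix) : ∃ e, ix e = i := by
  obtain ⟨e, _, he⟩ := exists_index (enc i) 0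
  refine ⟨e, ?_⟩
  unfold ix
  rw [he]
  exact decP_enc decCode_enc (decP_enc decCode_enc decN_enc) i

/-- on every input exactly one of the two verifiers accepts -/
def Good (e : ℕ) : Prop := ∀ x, (Acc (ix e).1 (ix e).2.2 x ↔ ¬ Acc (ix e).2.1 (ix e).2.2 x)

/-- the pair fails on `x`, and the budget `N` suffices to see this -/
def badN (e : ℕ) (x : List Bool) (N : ℕ) : Bool :=
  enough (ix e).2.2 x N && (accN (ix e).1 (ix e).2.2 x N == accN (ix e).2.1 (ix e).2.2 x N)

/-- a failure of the pair is found with the budget `N` -/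
def found (e N : ℕ) : Bool := (List.range N).any (fun i => badN e (str i) N)

theorem badN_iff {e : ℕ} {x : List Bool} {N : ℕ} : badN e x N = true ↔
    2 ^ (tm (ix e).2.2 x + 1) ≤ N ∧
      (Acc (ix e).1 (ix e).2.2 x ↔ Acc (ix e).2.1 (ix e).2.2 x) := by
  unfold badN
  rw [Bool.and_eq_true]
  constructor
  · rintro ⟨h1, h2⟩
    have h3 := accN_iff (c := (ix e).1) h1
    have h4 := accN_iff (c := (ix e).2.1) h1
    rw [beq_iff_eq] at h2
    refine ⟨enough_iff.1 h1, ?_⟩
    rw [← h3, ← h4, h2]
  · rintro ⟨h1, h2⟩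
    have h1 := enough_iff.2 h1
    have h3 := accN_iff (c := (ix e).1) h1
    have h4 := accN_iff (c := (ix e).2.1) h1
    refine ⟨h1, ?_⟩
    rw [beq_iff_eq, Bool.eq_iff_iff, h3, h4, h2]

theorem found_iff {e N : ℕ} : found e N = true ↔ ∃ x, idx x < N ∧
    2 ^ (tm (ix e).2.2 x + 1) ≤ N ∧
      (Acc (ix e).1 (ix e).2.2 x ↔ Acc (ix e).2.1 (ix e).2.2 x) := by
  unfold found
  rw [List.any_eq_true]
  constructor
  · rintro ⟨i, hi, h⟩
    refine ⟨str i, ?_, badN_iff.1 h⟩
    rw [idx_str]
    exact List.mem_range.1 hi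
  · rintro ⟨x, hx, h⟩
    refine ⟨idx x, List.mem_range.2 hx, ?_⟩
    rw [str_idx]
    exact badN_iff.2 h

theorem found_mono {e N N' : ℕ} (h : found e N = true) (hN : N ≤ N') : found e N' = true := by
  rw [found_iff] at h ⊢
  obtain ⟨x, h1, h2, h3⟩ := h
  exact ⟨x, by omega, by omega, h3⟩

theorem not_good_of_found {e N : ℕ} (h : found e N = true) : ¬ Good e := by
  rw [found_iff] at h
  obtain ⟨x, _, _, h3⟩ := h
  intro hg
  have := hg x
  tauto

theorem exists_found {e : ℕ} (h : ¬ Good e) : ∃ N, found e N = true := by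
  unfold Good at h
  push Not at h
  obtain ⟨x, hx⟩ := h
  refine ⟨max (idx x + 1) (2 ^ (tm (ix e).2.2 x + 1)), found_iff.2 ⟨x, ?_, le_max_right _ _, ?_⟩⟩
  · exact lt_of_lt_of_le (Nat.lt_succ_self _) (le_max_left _ _)
  · tauto

/-- `cd a m` says that a stage which starts at `a` may end at `m` -/
structure Clk (cd : ℕ → ℕ → Bool) (g : ℕ → ℕ) : Prop where
  le : ∀ a m, cd a m = true → g a ≤ m
  ev : ∀ a, ∃ m₀, ∀ m, m₀ ≤ m → cd a m = true

section stages

variable (cd : ℕ → ℕ → Bool)

/-- the new bound for the active pairs -/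
def upd (a k m : ℕ) : ℕ :=
  match (List.range k).find? (fun e => found e m && !found e a) with
  | none => k + 1
  | some e => e

def stp (m : ℕ) (s : ℕ × ℕ) : ℕ × ℕ :=
  if cd s.1 m then (m + 1, upd s.1 s.2 (m + 1)) else s

/-- beginning of the current stage and bound for the active pairs -/
def st : ℕ → ℕ × ℕ
  | 0 => (0, 0)
  | m + 1 => stp cd m (st m)

/-- the pair `e` is active at length `n` -/
def act (n e : ℕ) : Bool := decide (e < (st cd n).2) && !found e (st cd n).1

theorem upd_le (a k m : ℕ) : upd a k m ≤ k + 1 := by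
  unfold upd
  split
  · exact le_rfl
  · rename_i e he
    have := List.mem_of_find?_eq_some he
    rw [List.mem_range] at this
    omega

theorem st_le (n : ℕ) : (st cd n).1 ≤ n ∧ (st cd n).2 ≤ n := by
  induction n with
  | zero => exact ⟨le_rfl, le_rfl⟩
  | succ n ih =>
    simp only [st, stp]
    split
    · refine ⟨le_rfl, ?_⟩
      have := upd_le (st cd n).1 (st cd n).2 (n + 1)
      dsimp only
      omega
    · omega

variable {cd} {g : ℕ → ℕ}
  (hg : Clk cd g)

include hg

/-- the next end of a stage -/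
theorem next_switch (n : ℕ) : ∃ m, n ≤ m ∧ st cd m = st cd n ∧ cd (st cd m).1 m = true := by
  obtain ⟨m₀, hm₀⟩ := hg.ev (st cd n).1
  by_contra hcon
  push Not at hcon
  have key : ∀ d, st cd (n + d) = st cd n := by
    intro d
    induction d with
    | zero => rfl
    | succ d ih =>
      have h1 := hcon (n + d) (by omega) ih
      rw [← Nat.add_assoc, st, stp, if_neg h1]
      exact ih
  have h2 := hcon (n + m₀) (by omega) (key m₀)
  apply h2
  rw [key]
  exact hm₀ _ (by omega)

/-- a stage is long -/
theorem st_const {n : ℕ} (h : (st cd n).1 = n) : ∀ m, n ≤ m → m ≤ g n → st cd m = st cd n := by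
  intro m hm
  induction m, hm using Nat.le_induction with
  | base => intro _; rfl
  | succ m hm ih =>
    intro h1
    have h2 := ih (by omega)
    rw [st, stp, if_neg, h2]
    rw [h2, h]
    intro hc
    have := hg.le _ _ hc
    omega

omit hg in
theorem st_succ_of_cond {m : ℕ} (h : cd (st cd m).1 m = true) :
    st cd (m + 1) = (m + 1, upd (st cd m).1 (st cd m).2 (m + 1)) := by
  rw [st, stp, if_pos h]

omit hg in
theorem st_succ_of_not {m : ℕ} (h : ¬ cd (st cd m).1 m = true) :
    st cd (m + 1) = st cd m := by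
  rw [st, stp, if_neg h]

/-- at the end of the stage at `m` a failure of the active pair `e` is found, and `e` is the
least such pair -/
def Ev (cd : ℕ → ℕ → Bool) (m e : ℕ) : Prop :=
  cd (st cd m).1 m = true ∧
    (List.range (st cd m).2).find? (fun e => found e (m + 1) && !found e (st cd m).1) = some e

omit hg in
theorem Ev.st {m e : ℕ} (h : Ev cd m e) : st cd (m + 1) = (m + 1, e) := by
  rw [st_succ_of_cond h.1]
  unfold upd
  rw [h.2]

omit hg in
theorem step_cases (m : ℕ) : (st cd (m + 1)).2 = (st cd m).2 ∨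
    (st cd (m + 1)).2 = (st cd m).2 + 1 ∨ ∃ e, Ev cd m e ∧ (st cd (m + 1)).2 = e := by
  by_cases h : cd (st cd m).1 m = true
  · rcases hf : (List.range (st cd m).2).find?
      (fun e => found e (m + 1) && !found e (st cd m).1) with _ | e
    · right; left
      rw [st_succ_of_cond h]
      unfold upd
      rw [hf]
    · right; right
      exact ⟨e, ⟨h, hf⟩, by rw [Ev.st ⟨h, hf⟩]⟩
  · left
    rw [st_succ_of_not h]

/-- a bad active pair leads to an event -/
theorem event_of_bad {n b e : ℕ} (hb : ∀ m, n ≤ m → b ≤ (st cd m).2) (heb : e < b)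
    (hbad : ¬ Good e) (hf : found e (st cd n).1 = false) : ∃ m e', n ≤ m ∧ e' ≤ e ∧ Ev cd m e' := by
  classical
  obtain ⟨N, hN⟩ := exists_found hbad
  -- the first end of a stage at which the failure is found
  have hex : ∃ m, n ≤ m ∧ cd (st cd m).1 m = true ∧ found e (m + 1) = true := by
    obtain ⟨m, hm1, _, hm3⟩ := next_switch hg (max n N)
    exact ⟨m, (le_max_left _ _).trans hm1, hm3,
      found_mono hN (((le_max_right _ _).trans hm1).trans (Nat.le_succ _))⟩
  set m := Nat.find hex with hm
  obtain ⟨h1, h2, h3⟩ := Nat.find_spec hex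
  have hmin : ∀ m', m' < m → ¬ (n ≤ m' ∧ cd (st cd m').1 m' = true ∧
      found e (m' + 1) = true) := fun m' h => Nat.find_min hex h
  have key : ∀ m', n ≤ m' → m' ≤ m → found e (st cd m').1 = false := by
    intro m' hm'
    induction m', hm' using Nat.le_induction with
    | base => intro _; exact hf
    | succ m' hm' ih =>
      intro h4
      by_cases hc : cd (st cd m').1 m' = true
      · rw [st_succ_of_cond hc]
        have := hmin m' (by omega)
        by_contra h5
        exact this ⟨hm', hc, by simpa using h5⟩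
      · rw [st_succ_of_not hc]
        exact ih (by omega)
  have h4 := key m h1 le_rfl
  have h5 : e ∈ List.range (st cd m).2 := List.mem_range.2 (lt_of_lt_of_le heb (hb m h1))
  have h6 : ((List.range (st cd m).2).find?
      (fun e => found e (m + 1) && !found e (st cd m).1)).isSome := by
    rw [List.find?_isSome]
    exact ⟨e, h5, by rw [h3, h4]; rfl⟩
  obtain ⟨e', he'⟩ := Option.isSome_iff_exists.1 h6
  refine ⟨m, e', h1, ?_, h2, he'⟩
  by_contra hlt
  rw [List.find?_range_eq_some] at he'
  have := he'.2.2 e (by omega)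
  rw [h3, h4] at this
  simp at this

/-- there are arbitrarily late stages in which all active pairs are good -/
theorem true_stage (n₀ : ℕ) : ∃ n, n₀ ≤ n ∧ (st cd n).1 = n ∧ ∀ e, act cd n e = true → Good e := by
  classical
  obtain ⟨m₀, hm₀, _, hc₀⟩ := next_switch hg n₀
  have hs : st cd (m₀ + 1) = (m₀ + 1, upd (st cd m₀).1 (st cd m₀).2 (m₀ + 1)) :=
    st_succ_of_cond hc₀
  by_cases hex : ∃ e, ∃ m, m₀ + 1 ≤ m ∧ Ev cd m e
  · set e := Nat.find hex with he
    obtain ⟨m, hm, hev⟩ := Nat.find_spec hex
    have hmin : ∀ e', e' < e → ¬ ∃ m, m₀ + 1 ≤ m ∧ Ev cd m e' := fun e' h => Nat.find_min hex h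
    refine ⟨m + 1, by omega, by rw [Ev.st hev], ?_⟩
    have hlow : ∀ m', m + 1 ≤ m' → e ≤ (st cd m').2 := by
      intro m' hm'
      induction m', hm' using Nat.le_induction with
      | base => rw [Ev.st hev]
      | succ m' hm' ih =>
        rcases step_cases (cd := cd) m' with h | h | ⟨e', h1, h2⟩
        · omega
        · omega
        · rw [h2]
          by_contra hlt
          exact hmin e' (by omega) ⟨m', by omega, h1⟩
    intro e' he'
    unfold act at he'
    rw [Bool.and_eq_true, decide_eq_true_eq, Bool.not_eq_true'] at he'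
    by_contra hbad
    have h1 : e' < e := by
      have := he'.1
      rw [Ev.st hev] at this
      exact this
    obtain ⟨m', e'', h2, h3, h4⟩ := event_of_bad hg hlow h1 hbad he'.2
    exact hmin e'' (by omega) ⟨m', by omega, h4⟩
  · push Not at hex
    refine ⟨m₀ + 1, by omega, by rw [hs], ?_⟩
    have hlow : ∀ m', m₀ + 1 ≤ m' → (st cd (m₀ + 1)).2 ≤ (st cd m').2 := by
      intro m' hm'
      induction m', hm' using Nat.le_induction with
      | base => exact le_rfl
      | succ m' hm' ih =>
        rcases step_cases (cd := cd) m' with h | h | ⟨e', h1, h2⟩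
        · omega
        · omega
        · exact absurd h1 (hex e' m' (by omega))
    intro e' he'
    unfold act at he'
    rw [Bool.and_eq_true, decide_eq_true_eq, Bool.not_eq_true'] at he'
    by_contra hbad
    obtain ⟨m', e'', h2, h3, h4⟩ := event_of_bad hg hlow he'.1 hbad he'.2
    exact hex e'' m' h2 h4

/-- a good pair is active from some length on -/
theorem good_active {e : ℕ} (he : Good e) : ∃ J, ∀ n, J ≤ n → act cd n e = true := by
  classical
  -- a budget which suffices for the bad pairs below `e`
  have hB : ∃ B, ∀ e', e' ≤ e → ¬ Good e' → found e' B = true := by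
    have : ∀ j, ∃ B, ∀ e', e' < j → ¬ Good e' → found e' B = true := by
      intro j
      induction j with
      | zero => exact ⟨0, fun e' h => absurd h (by omega)⟩
      | succ j ih =>
        obtain ⟨B, hB⟩ := ih
        by_cases hj : Good j
        · refine ⟨B, fun e' h1 h2 => ?_⟩
          rcases Nat.lt_succ_iff_lt_or_eq.1 h1 with h | h
          · exact hB e' h h2
          · subst h; exact absurd hj h2
        · obtain ⟨N, hN⟩ := exists_found hj
          refine ⟨max B N, fun e' h1 h2 => ?_⟩
          rcases Nat.lt_succ_iff_lt_or_eq.1 h1 with h | h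
          · exact found_mono (hB e' h h2) (le_max_left _ _)
          · subst h; exact found_mono hN (le_max_right _ _)
    obtain ⟨B, hB⟩ := this (e + 1)
    exact ⟨B, fun e' h => hB e' (by omega)⟩
  obtain ⟨B, hB⟩ := hB
  obtain ⟨m₀, hm₀, _, hc₀⟩ := next_switch hg B
  -- all later stages begin after `B`
  have hst : ∀ m, m₀ + 1 ≤ m → B ≤ (st cd m).1 := by
    intro m hm
    induction m, hm using Nat.le_induction with
    | base => rw [st_succ_of_cond hc₀]; dsimp only; omega
    | succ m hm ih =>
      by_cases hc : cd (st cd m).1 m = true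
      · rw [st_succ_of_cond hc]; dsimp only; omega
      · rw [st_succ_of_not hc]; exact ih
  have hev : ∀ m e', m₀ + 1 ≤ m → Ev cd m e' → e < e' := by
    intro m e' hm h
    by_contra hle
    have h1 := List.find?_some h.2
    rw [Bool.and_eq_true, Bool.not_eq_true'] at h1
    have h2 := found_mono (hB e' (by omega) (not_good_of_found h1.1)) (hst m hm)
    rw [h2] at h1
    exact absurd h1.2 (by simp)
  have hgrow : ∀ j, j ≤ e + 1 → ∃ n, m₀ + 1 ≤ n ∧ j ≤ (st cd n).2 := by
    intro j
    induction j with
    | zero => intro _; exact ⟨m₀ + 1, le_rfl, Nat.zero_le _⟩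
    | succ j ih =>
      intro hj
      obtain ⟨n, hn, hjn⟩ := ih (by omega)
      obtain ⟨m, hm, hs, hc⟩ := next_switch hg n
      refine ⟨m + 1, by omega, ?_⟩
      have h1 := st_succ_of_cond hc
      rw [h1]
      rcases hf : (List.range (st cd m).2).find?
        (fun e => found e (m + 1) && !found e (st cd m).1) with _ | e'
      · unfold upd
        rw [hf]
        simp only
        rw [hs]
        omega
      · have h2 := hev m e' (by omega) ⟨hc, hf⟩
        unfold upd
        rw [hf]
        simp only
        omega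
  obtain ⟨n, hn, hen⟩ := hgrow (e + 1) le_rfl
  refine ⟨n, fun m hm => ?_⟩
  have h1 : e + 1 ≤ (st cd m).2 := by
    induction m, hm using Nat.le_induction with
    | base => exact hen
    | succ m hm ih =>
      rcases step_cases (cd := cd) m with h | h | ⟨e', h1, h2⟩
      · omega
      · omega
      · have := hev m e' (by omega) h1
        omega
  unfold act
  rw [Bool.and_eq_true, decide_eq_true_eq, Bool.not_eq_true']
  refine ⟨by omega, ?_⟩
  by_contra hf
  exact not_good_of_found (by simpa using hf) he

end stages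

/-! ### polynomial time -/

section
variable {α : Type} [TEnc α]

theorem pf_ix {e : α → ℕ} (he : PF e) : PF (fun a => ix (e a)) := by
  have h : PF (fun t : Tr => decIx t) :=
    PF.decP (d := decCode) (d' := decP decCode decN) (PF.decCode PF.id)
      (PF.decP (PF.decCode PF.id) (PF.decN PF.id) PF.id) PF.id
  exact h.comp (PF.parse (PF.str he))

theorem pf_badN {e N : α → ℕ} {x : α → List Bool} (he : PF e) (hx : PF x) (hN : PF N) :
    PF (fun a => badN (e a) (x a) (N a)) := by
  have hi := pf_ix he
  unfold badN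
  exact PF.and (pf_enough (PF.snd' (PF.snd' hi)) hx hN)
    (PF.beqBool (pf_accN (PF.fst' hi) (PF.snd' (PF.snd' hi)) hx hN)
      (pf_accN (PF.fst' (PF.snd' hi)) (PF.snd' (PF.snd' hi)) hx hN))

theorem pf_found {e N : α → ℕ} (he : PF e) (hN : PF N) : PF (fun a => found (e a) (N a)) := by
  unfold found
  exact PF.any (f := fun a i => badN (e a) (str i) (N a)) (PF.range hN)
    (pf_badN (he.comp PF.fst) (PF.str PF.snd) (hN.comp PF.fst))

theorem pf_upd {a k m : α → ℕ} (ha : PF a) (hk : PF k) (hm : PF m) :
    PF (fun p => upd (a p) (k p) (m p)) := by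
  have h := PF.optCase
    (l := fun p => (List.range (k p)).find? (fun e => found e (m p) && !found e (a p)))
    (g := fun p => k p + 1) (h := fun _ e => e)
    (PF.find (f := fun p e => found e (m p) && !found e (a p)) (PF.range hk)
      (PF.and (pf_found PF.snd (hm.comp PF.fst)) (PF.not (pf_found PF.snd (ha.comp PF.fst)))))
    (PF.succ hk) PF.snd
  refine h.congr fun p => ?_
  unfold upd
  rcases (List.range (k p)).find? (fun e => found e (m p) && !found e (a p)) with _ | e <;> rfl

theorem pf_stp {cd : ℕ → ℕ → Bool} (hcd : PF (fun p : ℕ × ℕ => cd p.1 p.2)) {m : α → ℕ}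
    {s : α → ℕ × ℕ} (hm : PF m) (hs : PF s) : PF (fun p => stp cd (m p) (s p)) := by
  unfold stp
  exact PF.ite (hcd.comp (PF.pair (PF.fst' hs) hm))
    (PF.pair (PF.succ hm) (pf_upd (PF.fst' hs) (PF.snd' hs) (PF.succ hm))) hs

theorem pf_st {cd : ℕ → ℕ → Bool} (hcd : PF (fun p : ℕ × ℕ => cd p.1 p.2)) {n : α → ℕ}
    (hn : PF n) : PF (fun a => st cd (n a)) := by
  have key : ∀ j, (fun q : ℕ × ℕ × ℕ => (q.1 + 1, stp cd q.1 q.2))^[j] (0, (0, 0)) =
      (j, st cd j) := by
    intro j
    induction j with
    | zero => rfl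
    | succ j ih => rw [Function.iterate_succ_apply', ih]; rfl
  have h := PF.iterate (n := n) (s := fun _ => ((0, (0, 0)) : ℕ × ℕ × ℕ))
    (f := fun _ q => (q.1 + 1, stp cd q.1 q.2)) hn (PF.const _)
    (PF.pair (PF.succ (PF.fst' PF.snd)) (pf_stp hcd (PF.fst' PF.snd) (PF.snd' PF.snd)))
    (b := fun a => 6 * sz (n a) + 10)
    (((PB.const 6).mul hn.size).add (PB.const 10)) (by
      intro a j hj
      rw [key, sz_pair, sz_prod, sz_nat, sz_nat, sz_nat, sz_nat]
      have := st_le cd j
      omega)
  refine (PF.snd' h).congr fun a => ?_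
  rw [key]

theorem pf_act {cd : ℕ → ℕ → Bool} (hcd : PF (fun p : ℕ × ℕ => cd p.1 p.2)) {n e : α → ℕ}
    (hn : PF n) (he : PF e) :
    PF (fun a => act cd (n a) (e a)) := by
  unfold act
  exact PF.and (PF.lt he (PF.snd' (pf_st hcd hn)))
    (PF.not (pf_found he (PF.fst' (pf_st hcd hn))))

end

end Pool.Agent.T9h49.SC
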